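import Pool.Agent.Work.Shared.BorsukUlam.Prism

/-!
# The Borsuk–Ulam theorem

`N` odd continuous real functions on the sphere of dimension `N` have a common zero.
-/

namespace BorsukUlamAux

open Finset

variable {N : ℕ}

/-- The `ℓ¹` sphere. -/
def OneSphere (N : ℕ) : Set (Fin (N + 1) → ℝ) := {x | ∑ j, |x j| = 1}

/-- The `i`-th basis vector. -/
def bv (N i : ℕ) : Fin (N + 1) → ℝ := fun j => if (j : ℕ) = i then 1 else 0

/-- The homotopy to the `i`-th basis vector, in `T` steps. -/
noncomputable def hom (T i k : ℕ) (x : Fin (N + 1) → ℝ) : Fin (N + 1) → ℝ :=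
  (1 - (k : ℝ) / T) • x + ((k : ℝ) / T) • bv N i

/-- Small lists of points. -/
def Small (T i : ℕ) (σ : List (Fin (N + 1) → ℝ)) : Prop :=
  σ.length = i ∧ (∀ x ∈ σ, x ∈ OneSphere N ∧ ∀ j : Fin (N + 1), i ≤ (j : ℕ) → x j = 0) ∧
    ∀ x ∈ σ, ∀ y ∈ σ, ‖x - y‖ ≤ 2 * i / T

theorem norm_le_of_mem {x : Fin (N + 1) → ℝ} (h : x ∈ OneSphere N) : ‖x‖ ≤ 1 := by
  rw [pi_norm_le_iff_of_nonneg zero_le_one]
  intro i
  rw [Real.norm_eq_abs]
  have h1 : ∑ j, |x j| = 1 := h
  rw [← h1]
  exact single_le_sum (f := fun j => |x j|) (fun j _ => abs_nonneg _) (mem_univ i)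

theorem bv_mem {i : ℕ} (hi : i ≤ N) : bv N i ∈ OneSphere N := by
  have h : ∀ j : Fin (N + 1), |bv N i j| = if j = ⟨i, by omega⟩ then 1 else 0 := by
    intro j
    unfold bv
    by_cases hj : (j : ℕ) = i
    · rw [if_pos hj, if_pos (Fin.ext hj), abs_one]
    · rw [if_neg hj, if_neg (fun h => hj (by rw [h])), abs_zero]
  change ∑ j, |bv N i j| = 1
  rw [sum_congr rfl fun j _ => h j, sum_ite_eq']
  simp

theorem bv_zero {i : ℕ} (j : Fin (N + 1)) (hj : i + 1 ≤ (j : ℕ)) : bv N i j = 0 :=
  if_neg (by omega)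

theorem neg_mem {x : Fin (N + 1) → ℝ} (h : x ∈ OneSphere N) : -x ∈ OneSphere N := by
  have h1 : ∑ j, |x j| = 1 := h
  change ∑ j, |(-x) j| = 1
  simpa using h1

theorem hom_zero (T i : ℕ) (x : Fin (N + 1) → ℝ) : hom T i 0 x = x := by
  simp [hom]

theorem hom_last {T : ℕ} (hT : 0 < T) (i : ℕ) (x : Fin (N + 1) → ℝ) : hom T i T x = bv N i := by
  have : (T : ℝ) ≠ 0 := by positivity
  simp [hom, div_self this]

theorem frac_le {T k : ℕ} (hT : 0 < T) (hk : k ≤ T) : (k : ℝ) / T ≤ 1 := by
  have : (0 : ℝ) < T := by exact_mod_cast hT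
  rw [div_le_one this]
  exact_mod_cast hk

theorem hom_mem {T i k : ℕ} (hT : 0 < T) (hk : k ≤ T) (hi : i ≤ N) {x : Fin (N + 1) → ℝ}
    (hx : x ∈ OneSphere N) (hx0 : ∀ j : Fin (N + 1), i ≤ (j : ℕ) → x j = 0) :
    hom T i k x ∈ OneSphere N ∧ ∀ j : Fin (N + 1), i + 1 ≤ (j : ℕ) → hom T i k x j = 0 := by
  have h1 := frac_le hT hk
  have h0 : (0 : ℝ) ≤ (k : ℝ) / T := by positivity
  constructor
  · have h : ∀ j : Fin (N + 1), |hom T i k x j| =
        (1 - (k : ℝ) / T) * |x j| + ((k : ℝ) / T) * |bv N i j| := by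
      intro j
      have e : hom T i k x j = (1 - (k : ℝ) / T) * x j + ((k : ℝ) / T) * bv N i j := rfl
      rw [e]
      by_cases hj : (j : ℕ) = i
      · rw [hx0 j (by omega)]
        simp [abs_mul, abs_of_nonneg h0]
      · have : bv N i j = 0 := if_neg hj
        rw [this]
        simp [abs_mul, abs_of_nonneg (sub_nonneg.2 h1)]
    have e1 : ∑ j, |x j| = 1 := hx
    have e2 : ∑ j, |bv N i j| = 1 := bv_mem hi
    change ∑ j, |hom T i k x j| = 1
    rw [sum_congr rfl fun j _ => h j, sum_add_distrib, ← mul_sum, ← mul_sum, e1, e2]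
    ring
  · intro j hj
    have e : hom T i k x j = (1 - (k : ℝ) / T) * x j + ((k : ℝ) / T) * bv N i j := rfl
    rw [e, hx0 j (by omega), bv_zero j hj]
    ring

theorem hom_dist {T i k : ℕ} (hT : 0 < T) (hk : k ≤ T) (x x' : Fin (N + 1) → ℝ) :
    ‖hom T i k x - hom T i k x'‖ ≤ ‖x - x'‖ := by
  have h1 := frac_le hT hk
  have h0 : (0 : ℝ) ≤ (k : ℝ) / T := by positivity
  have e : hom T i k x - hom T i k x' = (1 - (k : ℝ) / T) • (x - x') := by
    unfold hom
    module
  rw [e, norm_smul, Real.norm_eq_abs, abs_of_nonneg (sub_nonneg.2 h1)]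
  have := norm_nonneg (x - x')
  nlinarith

theorem hom_step {T i k : ℕ} (hi : i ≤ N) {x : Fin (N + 1) → ℝ} (hx : x ∈ OneSphere N) :
    ‖hom T i k x - hom T i (k + 1) x‖ ≤ 2 / T := by
  have e : hom T i k x - hom T i (k + 1) x = (1 / (T : ℝ)) • (x - bv N i) := by
    unfold hom
    push_cast
    rw [add_div]
    module
  have h2 : ‖x - bv N i‖ ≤ 2 := by
    refine (norm_sub_le _ _).trans ?_
    have := norm_le_of_mem hx
    have := norm_le_of_mem (bv_mem hi)
    linarith
  rw [e, norm_smul, Real.norm_eq_abs, abs_of_nonneg (by positivity)]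
  calc 1 / (T : ℝ) * ‖x - bv N i‖ ≤ 1 / (T : ℝ) * 2 := by gcongr
    _ = 2 / T := by ring

theorem hom_dist' {T i k : ℕ} (hT : 0 < T) (hk : k + 1 ≤ T) (hi : i ≤ N)
    {x x' : Fin (N + 1) → ℝ} (hx : x ∈ OneSphere N) (hx' : x' ∈ OneSphere N)
    {y y' : Fin (N + 1) → ℝ} (hy : y = hom T i k x ∨ y = hom T i (k + 1) x)
    (hy' : y' = hom T i k x' ∨ y' = hom T i (k + 1) x') :
    ‖y - y'‖ ≤ ‖x - x'‖ + 2 / T := by
  have hp : (0 : ℝ) ≤ 2 / T := by positivity
  rcases hy with rfl | rfl <;> rcases hy' with rfl | rfl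
  · exact (hom_dist hT (by omega) x x').trans (by linarith)
  · have h1 := hom_dist (i := i) (k := k) hT (by omega) x x'
    have h2 := hom_step (T := T) (k := k) hi hx'
    calc ‖hom T i k x - hom T i (k + 1) x'‖
        = ‖(hom T i k x - hom T i k x') + (hom T i k x' - hom T i (k + 1) x')‖ := by congr 1; abel
      _ ≤ ‖hom T i k x - hom T i k x'‖ + ‖hom T i k x' - hom T i (k + 1) x'‖ := norm_add_le _ _
      _ ≤ _ := by linarith
  · have h1 := hom_dist (i := i) (k := k) hT (by omega) x x'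
    have h2 := hom_step (T := T) (k := k) hi hx
    rw [norm_sub_rev] at h2
    calc ‖hom T i (k + 1) x - hom T i k x'‖
        = ‖(hom T i k x - hom T i k x') + (hom T i (k + 1) x - hom T i k x)‖ := by congr 1; abel
      _ ≤ ‖hom T i k x - hom T i k x'‖ + ‖hom T i (k + 1) x - hom T i k x‖ := norm_add_le _ _
      _ ≤ _ := by linarith
  · exact (hom_dist hT (by omega) x x').trans (by linarith)

theorem fill_congr {T i : ℕ} (hT : 0 < T) (hi : i ≤ N) {σ : List (Fin (N + 1) → ℝ)}
    (hσ : Small T i σ) {g h : List (Fin (N + 1) → ℝ) → ZMod 2}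
    (H : ∀ τ, Small T (i + 1) τ → g τ = h τ) :
    fill T (hom T i) (bv N i) g σ = fill T (hom T i) (bv N i) h σ := by
  obtain ⟨h1, h2, h3⟩ := hσ
  unfold fill
  congr 1
  · refine sum_congr rfl fun k hk => ?_
    have hk' : k + 1 ≤ T := Finset.mem_range.1 hk
    refine prism_congr _ _ _ fun τ hτ hτ2 => H τ ⟨by rw [hτ, h1], ?_, ?_⟩
    · intro y hy
      obtain ⟨x, hx, hxy⟩ := hτ2 y hy
      rcases hxy with rfl | rfl
      · exact hom_mem hT (by omega) hi (h2 x hx).1 (h2 x hx).2
      · exact hom_mem hT hk' hi (h2 x hx).1 (h2 x hx).2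
    · intro y hy y' hy'
      obtain ⟨x, hx, hxy⟩ := hτ2 y hy
      obtain ⟨x', hx', hxy'⟩ := hτ2 y' hy'
      have := hom_dist' hT hk' hi (h2 x hx).1 (h2 x' hx').1 hxy hxy'
      have h4 := h3 x hx x' hx'
      refine this.trans ?_
      push_cast
      have : (2 : ℝ) * (i + 1) / T = 2 * i / T + 2 / T := by ring
      rw [this]
      linarith
  · have h4 : ∀ y ∈ bv N i :: σ.map (hom T i T), y = bv N i := by
      intro y hy
      rcases List.mem_cons.1 hy with rfl | hy
      · rfl
      · obtain ⟨x, _, rfl⟩ := List.mem_map.1 hy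
        exact hom_last hT i x
    refine H _ ⟨by simp [h1], ?_, ?_⟩
    · intro y hy
      rw [h4 y hy]
      exact ⟨bv_mem hi, fun j hj => bv_zero j hj⟩
    · intro y hy y' hy'
      rw [h4 y hy, h4 y' hy', sub_self, norm_zero]
      positivity

theorem small_neg {T i : ℕ} {σ : List (Fin (N + 1) → ℝ)} (h : Small T i σ) :
    Small T i (σ.map fun x => -x) := by
  obtain ⟨h1, h2, h3⟩ := h
  refine ⟨by simp [h1], ?_, ?_⟩
  · intro y hy
    obtain ⟨x, hx, rfl⟩ := List.mem_map.1 hy
    refine ⟨neg_mem (h2 x hx).1, fun j hj => ?_⟩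
    rw [Pi.neg_apply, (h2 x hx).2 j hj, neg_zero]
  · intro y hy y' hy'
    obtain ⟨x, hx, rfl⟩ := List.mem_map.1 hy
    obtain ⟨x', hx', rfl⟩ := List.mem_map.1 hy'
    have := h3 x hx x' hx'
    rw [norm_sub_rev] at this
    refine le_trans (le_of_eq ?_) this
    congr 1
    abel

/-- The cycles on the `ℓ¹` sphere. -/
noncomputable def zcyc (N T i : ℕ) (g : List (Fin (N + 1) → ℝ) → ZMod 2) : ZMod 2 :=
  cyc (fun x => -x) T (hom T) (bv N) i g

theorem zcyc_congr {T : ℕ} (hT : 0 < T) (i : ℕ) : i ≤ N + 1 →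
    ∀ {g h : List (Fin (N + 1) → ℝ) → ZMod 2}, (∀ τ, Small T i τ → g τ = h τ) →
    zcyc N T i g = zcyc N T i h := by
  induction i with
  | zero =>
    intro _ g h H
    exact H [] ⟨rfl, by simp, by simp⟩
  | succ i ih =>
    intro hi g h H
    change cyc _ _ _ _ i _ = cyc _ _ _ _ i _
    refine ih (by omega) fun σ hσ => ?_
    refine fill_congr hT (by omega) hσ fun τ hτ => ?_
    rw [H τ hτ, H _ (small_neg hτ)]

/-- A Tucker type lemma. -/
theorem tucker {T : ℕ} (hT : 0 < T) (lab : (Fin (N + 1) → ℝ) → Lbl)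
    (h1 : ∀ x ∈ OneSphere N, (lab x).2 < N)
    (h2 : ∀ x ∈ OneSphere N, lab (-x) = (lab x).opp) :
    ∃ x ∈ OneSphere N, ∃ y ∈ OneSphere N, ‖x - y‖ ≤ 2 * (N + 1) / T ∧ lab y = (lab x).opp := by
  by_contra hcon
  push Not at hcon
  set a : List (Fin (N + 1) → ℝ) → ZMod 2 := fun σ => altN true (σ.map lab) with ha
  have key : ∀ i ≤ N + 1, zcyc N T i a = 1 := by
    intro i
    induction i with
    | zero => intro _; exact altN_nil true
    | succ i ih =>
      intro hi
      rw [← ih (by omega)]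
      have e1 : zcyc N T (i + 1) a = zcyc N T i (fill T (hom T i) (bv N i)
        (fun l => a l + a (l.map fun x => -x))) := rfl
      have e2 : zcyc N T i a = zcyc N T i (fill T (hom T i) (bv N i) (cob a)) :=
        (cyc_fill_cob _ T (hom T) (bv N) (fun i x => hom_zero T i x) i a
          (cyc_cob _ T (hom T) (bv N) (fun x => neg_neg x) (fun i x => hom_zero T i x) i)).symm
      rw [e1, e2]
      refine zcyc_congr hT i (by omega) fun σ hσ => ?_
      refine fill_congr hT (by omega) hσ fun τ hτ => ?_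
      obtain ⟨k1, k2, k3⟩ := hτ
      have e3 : (τ.map fun x => -x).map lab = (τ.map lab).map Lbl.opp := by
        rw [List.map_map, List.map_map]
        refine List.map_congr_left fun x hx => ?_
        exact h2 x (k2 x hx).1
      have e4 : a (τ.map fun x => -x) = altN false (τ.map lab) := by
        rw [ha]
        change altN true ((τ.map fun x => -x).map lab) = _
        rw [e3, altN_opp]
        rfl
      have e5 : cob a τ = cob (altN true) (τ.map lab) := (cob_map lab τ (altN true)).symm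
      rw [e4, e5, local_parity]
      intro p hp q hq hpq
      obtain ⟨x, hx, rfl⟩ := List.mem_map.1 hp
      obtain ⟨y, hy, rfl⟩ := List.mem_map.1 hq
      by_contra hne
      refine hcon x (k2 x hx).1 y (k2 y hy).1 ((k3 x hx y hy).trans ?_) ?_
      · have : ((i + 1 : ℕ) : ℝ) ≤ N + 1 := by exact_mod_cast hi
        gcongr
      · refine Prod.ext ?_ hpq.symm
        change (lab y).1 = !(lab x).1
        revert hne
        cases (lab x).1 <;> cases (lab y).1 <;> simp
  have k1 := key (N + 1) le_rfl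
  have k2 : zcyc N T (N + 1) a = zcyc N T (N + 1) (fun _ => 0) := by
    refine zcyc_congr hT (N + 1) le_rfl fun σ hσ => ?_
    obtain ⟨k1, k2, _⟩ := hσ
    refine altN_short (q := N) ?_ (by rw [List.length_map, k1]; omega)
    intro p hp
    obtain ⟨x, hx, rfl⟩ := List.mem_map.1 hp
    exact h1 x (k2 x hx).1
  have k3 : zcyc N T (N + 1) (fun _ => 0) = 0 := by
    have := cyc_add (fun x : Fin (N + 1) → ℝ => -x) T (hom T) (bv N) (N + 1) (fun _ => 0)
      (fun _ => 0)
    simp only [add_zero] at this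
    have h3 : zcyc N T (N + 1) (fun _ => 0) = zcyc N T (N + 1) (fun _ => 0) +
      zcyc N T (N + 1) (fun _ => 0) := this
    rw [zmod2_add_self] at h3
    exact h3
  rw [k2, k3] at k1
  exact zero_ne_one k1

theorem isCompact_oneSphere (N : ℕ) : IsCompact (OneSphere N) := by
  refine Metric.isCompact_of_isClosed_isBounded ?_ ?_
  · refine isClosed_eq ?_ continuous_const
    exact continuous_finsetSum _ fun j _ => (continuous_apply j).abs
  · refine (Metric.isBounded_closedBall (x := (0 : Fin (N + 1) → ℝ)) (r := 1)).subset ?_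
    intro x hx
    rw [mem_closedBall_zero_iff]
    exact norm_le_of_mem hx

open Classical in
/-- A choice of an index satisfying a predicate. -/
noncomputable def pick {ι : Type*} (i₀ : ι) (P : ι → Prop) : ι := if h : ∃ j, P j then h.choose else i₀

theorem pick_spec {ι : Type*} (i₀ : ι) {P : ι → Prop} (h : ∃ j, P j) : P (pick i₀ P) := by
  unfold pick
  rw [dif_pos h]
  exact h.choose_spec

/-- The Borsuk–Ulam theorem on the `ℓ¹` sphere. -/
theorem borsuk_ulam_one (F : (Fin (N + 1) → ℝ) → (Fin N → ℝ)) (hc : ContinuousOn F (OneSphere N))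
    (ho : ∀ x ∈ OneSphere N, F (-x) = -F x) : ∃ x ∈ OneSphere N, F x = 0 := by
  by_contra hcon
  push Not at hcon
  have hne : (OneSphere N).Nonempty := ⟨bv N 0, bv_mem (Nat.zero_le _)⟩
  obtain ⟨x0, hx0, hmin⟩ := (isCompact_oneSphere N).exists_isMinOn hne hc.norm
  have hm : 0 < ‖F x0‖ := norm_pos_iff.2 (hcon x0 hx0)
  have hN : 0 < N := by
    rcases Nat.eq_zero_or_pos N with rfl | h
    · exact absurd (Subsingleton.elim _ _) (hcon x0 hx0)
    · exact h
  set η := ‖F x0‖ with hη
  have hex : ∀ x ∈ OneSphere N, ∃ j : Fin N, η ≤ |F x j| := by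
    intro x hx
    by_contra hno
    push Not at hno
    have h1 : ‖F x‖ < η := (pi_norm_lt_iff hm).2 hno
    exact absurd (hmin hx) (not_le.2 h1)
  have huc := (isCompact_oneSphere N).uniformContinuousOn_of_continuous hc
  obtain ⟨δ, hδ, huc⟩ := Metric.uniformContinuousOn_iff.1 huc η hm
  obtain ⟨T, hT⟩ := exists_nat_gt (2 * ((N : ℝ) + 1) / δ)
  have hT0 : 0 < T := by
    have : (0 : ℝ) < T := lt_of_le_of_lt (by positivity) hT
    exact_mod_cast this
  have hTd : 2 * ((N : ℝ) + 1) / T < δ := by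
    have h0 : (0 : ℝ) < T := by exact_mod_cast hT0
    rw [div_lt_iff₀ hδ] at hT
    rw [div_lt_iff₀ h0]
    linarith
  set sel : (Fin (N + 1) → ℝ) → Fin N := fun x => pick ⟨0, hN⟩ fun j => η ≤ |F x j| with hsel
  have hsel' : ∀ x ∈ OneSphere N, η ≤ |F x (sel x)| := fun x hx =>
    pick_spec (P := fun j => η ≤ |F x j|) _ (hex x hx)
  have hselneg : ∀ x ∈ OneSphere N, sel (-x) = sel x := by
    intro x hx
    have : (fun j => η ≤ |F (-x) j|) = fun j => η ≤ |F x j| := by
      funext j
      rw [ho x hx, Pi.neg_apply, abs_neg]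
    change pick _ (fun j => η ≤ |F (-x) j|) = _
    rw [this]
  obtain ⟨x, hx, y, hy, hxy, hl⟩ := tucker hT0
    (fun x => (decide (0 < F x (sel x)), ((sel x : Fin N) : ℕ))) (fun x _ => (sel x).isLt) (by
      intro x hx
      refine Prod.ext ?_ ?_
      · change decide (0 < F (-x) (sel (-x))) = !decide (0 < F x (sel x))
        have h1 : F x (sel x) ≠ 0 := by
          intro h
          have := hsel' x hx
          rw [h, abs_zero] at this
          linarith
        rw [hselneg x hx, ho x hx, Pi.neg_apply]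
        rcases lt_or_gt_of_ne h1 with h | h
        · rw [decide_eq_true (by linarith), decide_eq_false (not_lt.2 h.le)]
          rfl
        · rw [decide_eq_false (by linarith), decide_eq_true h]
          rfl
      · change ((sel (-x) : Fin N) : ℕ) = sel x
        rw [hselneg x hx])
  have h1 : decide (0 < F y (sel y)) = !decide (0 < F x (sel x)) := congrArg Prod.fst hl
  have h2 : sel y = sel x := Fin.ext (congrArg Prod.snd hl)
  have h3 : dist (F x) (F y) < η := huc x hx y hy (by rw [dist_eq_norm]; linarith)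
  rw [dist_eq_norm] at h3
  have h4 : |F x (sel x) - F y (sel x)| < η := lt_of_le_of_lt (norm_le_pi_norm (F x - F y) (sel x)) h3
  have h5 := hsel' x hx
  have h6 := hsel' y hy
  rw [h2] at h1 h6
  rw [abs_lt] at h4
  by_cases hxp : 0 < F x (sel x)
  · rw [decide_eq_true hxp, Bool.not_true, decide_eq_false_iff_not, not_lt] at h1
    rw [abs_of_pos hxp] at h5
    linarith
  · rw [decide_eq_false hxp, Bool.not_false, decide_eq_true_eq] at h1
    rw [abs_of_nonpos (not_lt.1 hxp)] at h5
    linarith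

/-- The Euclidean sphere of dimension `M`. -/
abbrev Sph (M : ℕ) : Type := Metric.sphere (0 : EuclideanSpace ℝ (Fin (M + 1))) 1

/-- Radial projection. -/
noncomputable def radial {M : ℕ} (x : OneSphere M) : Sph M :=
  ⟨‖WithLp.toLp 2 x.1‖⁻¹ • WithLp.toLp 2 x.1, by
    have h : WithLp.toLp 2 x.1 ≠ 0 := by
      intro h
      have h1 : x.1 = 0 := by simpa using h
      have h2 : ∑ j, |x.1 j| = 1 := x.2
      rw [h1] at h2
      simp at h2
    rw [mem_sphere_zero_iff_norm, norm_smul, norm_inv, norm_norm]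
    exact inv_mul_cancel₀ (norm_ne_zero_iff.2 h)⟩

theorem radial_ne {M : ℕ} (x : OneSphere M) : ‖WithLp.toLp 2 x.1‖ ≠ 0 := by
  have h : WithLp.toLp 2 x.1 ≠ 0 := by
    intro h
    have h1 : x.1 = 0 := by simpa using h
    have h2 : ∑ j, |x.1 j| = 1 := x.2
    rw [h1] at h2
    simp at h2
  exact norm_ne_zero_iff.2 h

theorem continuous_radial {M : ℕ} : Continuous (radial (M := M)) := by
  refine Continuous.subtype_mk ?_ _
  have h1 : Continuous fun x : OneSphere M => WithLp.toLp 2 x.1 :=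
    (PiLp.continuous_toLp 2 _).comp continuous_subtype_val
  exact (h1.norm.inv₀ fun x => radial_ne x).smul h1

/-- The Borsuk–Ulam theorem: at most `M` odd continuous real functions on the sphere of
dimension `M` have a common zero. -/
theorem borsuk_ulam {M : ℕ} {ι : Type*} [Fintype ι] (hι : Fintype.card ι ≤ M)
    (f : ι → Sph M → ℝ) (hc : ∀ i, Continuous (f i)) (ho : ∀ i x, f i (-x) = -f i x) :
    ∃ x, ∀ i, f i x = 0 := by
  classical
  obtain ⟨e⟩ : Nonempty (ι ↪ Fin M) := Function.Embedding.nonempty_of_card_le (by simpa using hι)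
  set G : OneSphere M → (Fin M → ℝ) := fun x j =>
    if h : ∃ i, e i = j then f h.choose (radial x) else 0 with hG
  have hGc : Continuous G := by
    refine continuous_pi fun j => ?_
    by_cases h : ∃ i, e i = j
    · have : (fun x => G x j) = fun x => f h.choose (radial x) := by
        funext x; simp only [hG]; rw [dif_pos h]
      rw [this]
      exact (hc _).comp continuous_radial
    · have : (fun x => G x j) = fun x => 0 := by
        funext x; simp only [hG]; rw [dif_neg h]
      rw [this]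
      exact continuous_const
  set F : (Fin (M + 1) → ℝ) → (Fin M → ℝ) := fun x =>
    if h : x ∈ OneSphere M then G ⟨x, h⟩ else 0 with hF
  have hFG : ∀ x : OneSphere M, F x.1 = G x := fun x => by
    simp only [hF]; rw [dif_pos x.2]
  obtain ⟨x, hx, hx0⟩ := borsuk_ulam_one F (by
      rw [continuousOn_iff_continuous_domRestrict]
      have : (OneSphere M).domRestrict F = G := funext hFG
      rw [this]
      exact hGc) (by
    intro x hx
    rw [hFG ⟨x, hx⟩, hFG ⟨-x, neg_mem hx⟩]
    funext j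
    rw [Pi.neg_apply]
    have hr : radial (⟨-x, neg_mem hx⟩ : OneSphere M) = - radial ⟨x, hx⟩ := by
      refine Subtype.ext ?_
      simp [radial]
    by_cases h : ∃ i, e i = j
    · simp only [hG]; rw [dif_pos h, dif_pos h, hr, ho]
    · simp only [hG]; rw [dif_neg h, dif_neg h, neg_zero])
  refine ⟨radial ⟨x, hx⟩, fun i => ?_⟩
  have h1 := congrFun hx0 (e i)
  rw [hFG ⟨x, hx⟩] at h1
  have h : ∃ i', e i' = e i := ⟨i, rfl⟩
  simp only [hG] at h1
  rw [dif_pos h] at h1
  rwa [e.injective h.choose_spec] at h1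

end BorsukUlamAux
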