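import Pool.Agent.Work.Shared.BorsukUlam.Tucker

/-!
# Prism operators modulo 2 and small antipodal cycles on the `ℓ¹` sphere
-/

namespace BorsukUlamAux

open Finset

/-- The prism between two maps, acting on cochains. -/
def prism {δ : Type*} (φ ψ : δ → δ) : (List δ → ZMod 2) → List δ → ZMod 2
  | _, [] => 0
  | g, x :: l => g (φ x :: ψ x :: l.map ψ) + prism φ ψ (fun l' => g (φ x :: l')) l

theorem zmod2_add_self (a : ZMod 2) : a + a = 0 := by
  have h : (2 : ZMod 2) = 0 := rfl
  linear_combination a * h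

theorem prism_add {δ : Type*} (φ ψ : δ → δ) (L : List δ) : ∀ (g h : List δ → ZMod 2),
    prism φ ψ (fun l => g l + h l) L = prism φ ψ g L + prism φ ψ h L := by
  induction L with
  | nil => intro g h; simp [prism]
  | cons x l ih =>
    intro g h
    rw [prism, prism, prism, ih (fun l' => g (φ x :: l')) (fun l' => h (φ x :: l'))]
    ring

theorem prism_congr {δ : Type*} (φ ψ : δ → δ) (L : List δ) : ∀ {g h : List δ → ZMod 2},
    (∀ τ : List δ, τ.length = L.length + 1 → (∀ y ∈ τ, ∃ x ∈ L, y = φ x ∨ y = ψ x) → g τ = h τ) →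
    prism φ ψ g L = prism φ ψ h L := by
  induction L with
  | nil => intro g h _; rfl
  | cons x l ih =>
    intro g h H
    rw [prism, prism, ih (g := fun l' => g (φ x :: l')) (h := fun l' => h (φ x :: l')) ?_, H]
    · simp
    · intro y hy
      rcases List.mem_cons.1 hy with rfl | hy
      · exact ⟨x, List.mem_cons_self .., Or.inl rfl⟩
      rcases List.mem_cons.1 hy with rfl | hy
      · exact ⟨x, List.mem_cons_self .., Or.inr rfl⟩
      · obtain ⟨z, hz, rfl⟩ := List.mem_map.1 hy
        exact ⟨z, List.mem_cons_of_mem _ hz, Or.inr rfl⟩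
    · intro τ h1 h2
      refine H _ (by simp [h1]) ?_
      intro y hy
      rcases List.mem_cons.1 hy with rfl | hy
      · exact ⟨x, List.mem_cons_self .., Or.inl rfl⟩
      · obtain ⟨z, hz, hz'⟩ := h2 y hy
        exact ⟨z, List.mem_cons_of_mem _ hz, hz'⟩

/-- The homotopy formula. -/
theorem prism_cob {δ : Type*} (φ ψ : δ → δ) (L : List δ) : ∀ (g : List δ → ZMod 2),
    prism φ ψ (cob g) L + cob (prism φ ψ g) L = g (L.map ψ) + g (L.map φ) := by
  induction L with
  | nil => intro g; simp [prism, cob, zmod2_add_self]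
  | cons x l ih =>
    intro g
    have e1 : prism φ ψ (fun l' => cob g (φ x :: l')) l =
        prism φ ψ g l + prism φ ψ (cob (fun l' => g (φ x :: l'))) l := by
      rw [← prism_add]
      rfl
    have e2 : cob (fun l' => prism φ ψ g (x :: l')) l =
        cob (fun l' => g (φ x :: ψ x :: l'.map ψ)) l +
          cob (prism φ ψ (fun l' => g (φ x :: l'))) l := by
      rw [← cob_add]
      rfl
    have e3 := ih (fun l' => g (φ x :: l'))
    have e4 : cob g (φ x :: ψ x :: l.map ψ) = g (ψ x :: l.map ψ) + (g (φ x :: l.map ψ) +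
        cob (fun l' => g (φ x :: ψ x :: l')) (l.map ψ)) := by
      rw [cob, cob]
    have e5 : prism φ ψ (cob g) (x :: l) = cob g (φ x :: ψ x :: l.map ψ) +
      prism φ ψ (fun l' => cob g (φ x :: l')) l := rfl
    have e6 : cob (prism φ ψ g) (x :: l) = prism φ ψ g l +
      cob (fun l' => prism φ ψ g (x :: l')) l := rfl
    rw [e5, e6, e1, e2, e4, cob_map]
    simp only [List.map_cons]
    linear_combination e3 + zmod2_add_self (g (φ x :: l.map ψ)) +
      zmod2_add_self (prism φ ψ g l) +
      zmod2_add_self (cob (fun l' => g (φ x :: ψ x :: l'.map ψ)) l)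

/-- Filling: a homotopy in `T` steps followed by a cone, acting on cochains. -/
def fill {δ : Type*} (T : ℕ) (φ : ℕ → δ → δ) (e : δ) (g : List δ → ZMod 2) (L : List δ) : ZMod 2 :=
  ∑ k ∈ range T, prism (φ k) (φ (k + 1)) g L + g (e :: L.map (φ T))

theorem fill_add {δ : Type*} (T : ℕ) (φ : ℕ → δ → δ) (e : δ) (g h : List δ → ZMod 2)
    (L : List δ) : fill T φ e (fun l => g l + h l) L = fill T φ e g L + fill T φ e h L := by
  unfold fill
  rw [sum_congr rfl fun k _ => prism_add (φ k) (φ (k + 1)) L g h, sum_add_distrib]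
  ring

theorem cob_sum {δ : Type*} (T : ℕ) (G : ℕ → List δ → ZMod 2) (L : List δ) :
    cob (fun l => ∑ k ∈ range T, G k l) L = ∑ k ∈ range T, cob (G k) L := by
  induction T with
  | zero => simp only [range_zero, sum_empty]; exact cob_zero L _ (fun _ => rfl)
  | succ T ih =>
    rw [sum_range_succ, ← ih, ← cob_add]
    simp only [sum_range_succ]

theorem tele (T : ℕ) (a : ℕ → ZMod 2) : ∑ k ∈ range T, (a (k + 1) + a k) = a T + a 0 := by
  induction T with
  | zero => simp [zmod2_add_self]
  | succ T ih => rw [sum_range_succ, ih]; linear_combination zmod2_add_self (a T)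

theorem fill_cob {δ : Type*} (T : ℕ) (φ : ℕ → δ → δ) (hφ : ∀ x, φ 0 x = x) (e : δ)
    (g : List δ → ZMod 2) (L : List δ) :
    fill T φ e (cob g) L = cob (fill T φ e g) L + g L := by
  have h1 : cob (fill T φ e g) L = ∑ k ∈ range T, cob (prism (φ k) (φ (k + 1)) g) L +
      cob (fun l => g (e :: l)) (L.map (φ T)) := by
    rw [cob_map, ← cob_sum, ← cob_add]
    rfl
  have h2 : ∑ k ∈ range T, (prism (φ k) (φ (k + 1)) (cob g) L +
      cob (prism (φ k) (φ (k + 1)) g) L) = g (L.map (φ T)) + g (L.map (φ 0)) := by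
    rw [sum_congr rfl fun k _ => prism_cob (φ k) (φ (k + 1)) L g]
    exact tele T (fun k => g (L.map (φ k)))
  have h3 : L.map (φ 0) = L := by
    have : φ 0 = id := funext hφ
    rw [this, List.map_id]
  have h4 : fill T φ e (cob g) L = ∑ k ∈ range T, prism (φ k) (φ (k + 1)) (cob g) L +
      (g (L.map (φ T)) + cob (fun l => g (e :: l)) (L.map (φ T))) := rfl
  rw [sum_add_distrib, h3] at h2
  rw [h1, h4]
  linear_combination h2 + zmod2_add_self (g (L.map (φ T))) -
    zmod2_add_self (∑ k ∈ range T, cob (prism (φ k) (φ (k + 1)) g) L)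

section Cycle

variable {δ : Type*} (ν : δ → δ) (T : ℕ) (φ : ℕ → ℕ → δ → δ) (e : ℕ → δ)

/-- Evaluation of a cochain on the `i`-th antipodal cycle. -/
def cyc : ℕ → (List δ → ZMod 2) → ZMod 2
  | 0, g => g []
  | i + 1, g => cyc i (fill T (φ i) (e i) (fun l => g l + g (l.map ν)))

theorem cyc_add (i : ℕ) : ∀ (g h : List δ → ZMod 2),
    cyc ν T φ e i (fun l => g l + h l) = cyc ν T φ e i g + cyc ν T φ e i h := by
  induction i with
  | zero => intro g h; rfl
  | succ i ih =>
    intro g h
    rw [cyc, cyc, cyc, ← ih]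
    congr 1
    funext l
    rw [← fill_add]
    congr 1
    funext l'
    ring

theorem cyc_sym (hν : ∀ x, ν (ν x) = x) (i : ℕ) (g : List δ → ZMod 2) :
    cyc ν T φ e i (fun l => g (l.map ν)) = cyc ν T φ e i g := by
  cases i with
  | zero => rfl
  | succ i =>
    rw [cyc, cyc]
    congr 2
    funext l
    have : (l.map ν).map ν = l := by
      rw [List.map_map]
      have : ν ∘ ν = id := funext hν
      rw [this, List.map_id]
    rw [this]
    ring

theorem cyc_fill_cob (hφ : ∀ i x, φ i 0 x = x) (i : ℕ) (g : List δ → ZMod 2)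
    (h : ∀ g', cyc ν T φ e i (cob g') = 0) :
    cyc ν T φ e i (fill T (φ i) (e i) (cob g)) = cyc ν T φ e i g := by
  have : fill T (φ i) (e i) (cob g) = fun l => cob (fill T (φ i) (e i) g) l + g l :=
    funext fun l => fill_cob T (φ i) (hφ i) (e i) g l
  rw [this, cyc_add, h, zero_add]

theorem cyc_cob (hν : ∀ x, ν (ν x) = x) (hφ : ∀ i x, φ i 0 x = x) (i : ℕ) :
    ∀ (g : List δ → ZMod 2), cyc ν T φ e i (cob g) = 0 := by
  induction i with
  | zero => intro g; rfl
  | succ i ih =>
    intro g
    have h1 : (fun l => cob g l + cob g (l.map ν)) = cob (fun l => g l + g (l.map ν)) := by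
      funext l
      rw [cob_map, ← cob_add]
    rw [cyc, h1, cyc_fill_cob ν T φ e hφ i _ ih, cyc_add, cyc_sym ν T φ e hν, zmod2_add_self]

end Cycle

end BorsukUlamAux
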