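import Mathlib

/-!
# A Tucker type lemma on the `ℓ¹` sphere, proved with prism operators modulo 2

Functions on lists of points (cochains modulo 2) are used instead of chains: a chain is a
functional on cochains, and all operators are defined on cochains by recursion on lists.
-/

namespace BorsukUlamAux

/-- Labels: a sign and a value. -/
abbrev Lbl := Bool × ℕ

/-- The negative of a label. -/
def Lbl.opp (x : Lbl) : Lbl := (!x.1, x.2)

/-- Sorted by value, with alternating signs starting with `s`. -/
def SAlt : Bool → List Lbl → Prop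
  | _, [] => True
  | s, x :: l => x.1 = s ∧ (∀ y ∈ l, x.2 < y.2) ∧ SAlt (!s) l

/-- Alternating after sorting. -/
def PAlt (s : Bool) (L : List Lbl) : Prop := ∃ L', L'.Perm L ∧ SAlt s L'

open Classical in
/-- Indicator modulo 2 of the alternating lists. -/
noncomputable def altN (s : Bool) (L : List Lbl) : ZMod 2 := if PAlt s L then 1 else 0

theorem altN_congr {s s' : Bool} {L L' : List Lbl} (h : PAlt s L ↔ PAlt s' L') :
    altN s L = altN s' L' := by
  unfold altN
  by_cases h1 : PAlt s L
  · rw [if_pos h1, if_pos (h.1 h1)]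
  · rw [if_neg h1, if_neg (fun h2 => h1 (h.2 h2))]

theorem altN_zero {s : Bool} {L : List Lbl} (h : ¬ PAlt s L) : altN s L = 0 := if_neg h

theorem altN_perm {s : Bool} {L L' : List Lbl} (h : L.Perm L') : altN s L = altN s L' :=
  altN_congr ⟨fun ⟨M, h1, h2⟩ => ⟨M, h1.trans h, h2⟩, fun ⟨M, h1, h2⟩ => ⟨M, h1.trans h.symm, h2⟩⟩

theorem SAlt.pairwise {L : List Lbl} : ∀ {s : Bool}, SAlt s L → L.Pairwise fun x y => x.2 < y.2 := by
  induction L with
  | nil => intro s _; exact List.Pairwise.nil
  | cons x L ih => intro s h; exact List.pairwise_cons.2 ⟨h.2.1, ih h.2.2⟩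

theorem SAlt.nodup {L : List Lbl} {s : Bool} (h : SAlt s L) : (L.map Prod.snd).Nodup := by
  rw [List.Nodup, List.pairwise_map]
  exact h.pairwise.imp (fun h => Nat.ne_of_lt h)

theorem PAlt.nodup {s : Bool} {L : List Lbl} (h : PAlt s L) : (L.map Prod.snd).Nodup := by
  obtain ⟨L', h1, h2⟩ := h
  exact (h1.map Prod.snd).nodup_iff.1 h2.nodup

theorem altN_nil (s : Bool) : altN s [] = 1 := if_pos ⟨[], List.Perm.refl _, trivial⟩

theorem PAlt_cons_min {s : Bool} {x : Lbl} {l : List Lbl} (h : ∀ y ∈ l, x.2 < y.2) :
    PAlt s (x :: l) ↔ x.1 = s ∧ PAlt (!s) l := by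
  constructor
  · rintro ⟨L', h1, h2⟩
    cases L' with
    | nil => exact absurd h1.length_eq (by simp)
    | cons y l1 =>
      obtain ⟨h3, h4, h5⟩ := h2
      have hyx : y = x := by
        by_contra hne
        have hx : x ∈ y :: l1 := h1.mem_iff.2 (List.mem_cons_self ..)
        have hy : y ∈ x :: l := h1.mem_iff.1 (List.mem_cons_self ..)
        have hx' : x ∈ l1 := (List.mem_cons.1 hx).resolve_left (fun h => hne h.symm)
        have hy' : y ∈ l := (List.mem_cons.1 hy).resolve_left hne
        exact absurd (h4 x hx') (Nat.lt_asymm (h y hy'))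
      subst hyx
      exact ⟨h3, l1, h1.cons_inv, h5⟩
  · rintro ⟨h1, l1, h2, h3⟩
    exact ⟨x :: l1, h2.cons x, h1, fun y hy => h y (h2.mem_iff.1 hy), h3⟩

theorem altN_cons_min {s : Bool} {x : Lbl} {l : List Lbl} (h : ∀ y ∈ l, x.2 < y.2) :
    altN s (x :: l) = (if x.1 = s then 1 else 0) * altN (!s) l := by
  by_cases hs : x.1 = s
  · rw [if_pos hs, one_mul]
    exact altN_congr (by rw [PAlt_cons_min h]; simp [hs])
  · rw [if_neg hs, zero_mul]
    exact altN_zero (by rw [PAlt_cons_min h]; simp [hs])

theorem SAlt.opp {L : List Lbl} : ∀ {s : Bool}, SAlt s L → SAlt (!s) (L.map Lbl.opp) := by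
  induction L with
  | nil => intro s _; trivial
  | cons x L ih =>
    intro s h
    refine ⟨by simp [Lbl.opp, h.1], ?_, ih h.2.2⟩
    intro y hy
    obtain ⟨z, hz, rfl⟩ := List.mem_map.1 hy
    exact h.2.1 z hz

theorem opp_opp (x : Lbl) : x.opp.opp = x := by simp [Lbl.opp]

theorem altN_opp (s : Bool) (L : List Lbl) : altN s (L.map Lbl.opp) = altN (!s) L := by
  refine altN_congr ?_
  constructor
  · rintro ⟨M, h1, h2⟩
    refine ⟨M.map Lbl.opp, ?_, h2.opp⟩
    have := h1.map Lbl.opp
    rw [List.map_map] at this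
    have e : (Lbl.opp ∘ Lbl.opp) = id := by funext x; exact opp_opp x
    rwa [e, List.map_id] at this
  · rintro ⟨M, h1, h2⟩
    refine ⟨M.map Lbl.opp, h1.map _, ?_⟩
    have := h2.opp
    rwa [Bool.not_not] at this

theorem altN_short {s : Bool} {L : List Lbl} {q : ℕ} (h : ∀ x ∈ L, x.2 < q) (hL : q < L.length) :
    altN s L = 0 := by
  refine altN_zero fun hc => ?_
  have h1 := hc.nodup
  have h2 : (L.map Prod.snd).toFinset ⊆ Finset.range q := by
    intro x hx
    rw [List.mem_toFinset] at hx
    obtain ⟨y, hy, rfl⟩ := List.mem_map.1 hx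
    exact Finset.mem_range.2 (h y hy)
  have h3 := Finset.card_le_card h2
  rw [List.toFinset_card_of_nodup h1, List.length_map, Finset.card_range] at h3
  omega

/-! ### The coboundary -/

/-- The coboundary modulo 2: the sum of the values over all lists with one entry erased. -/
def cob {δ : Type*} : (List δ → ZMod 2) → List δ → ZMod 2
  | _, [] => 0
  | g, x :: l => g l + cob (fun l' => g (x :: l')) l

theorem cob_congr {δ : Type*} {L : List δ} : ∀ {g g' : List δ → ZMod 2},
    (∀ l, l.Sublist L → g l = g' l) → cob g L = cob g' L := by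
  induction L with
  | nil => intro g g' _; rfl
  | cons x l ih =>
    intro g g' h
    rw [cob, cob, h l (List.sublist_cons_self x l),
      ih (fun l' hl' => h (x :: l') (hl'.cons_cons x))]

theorem cob_perm {δ : Type*} {L L' : List δ} (hL : L.Perm L') : ∀ {g : List δ → ZMod 2},
    (∀ l l', l.Perm l' → g l = g l') → cob g L = cob g L' := by
  induction hL with
  | nil => intro g _; rfl
  | @cons x l l' h ih =>
    intro g hg
    rw [cob, cob, hg _ _ h, ih (fun l l' hl => hg _ _ (hl.cons x))]
  | swap x y l =>
    intro g hg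
    rw [cob, cob, cob, cob]
    have : cob (fun l' => g (y :: x :: l')) l = cob (fun l' => g (x :: y :: l')) l :=
      cob_congr (fun l' _ => hg _ _ (List.Perm.swap x y l'))
    rw [this]
    ring
  | trans _ _ ih1 ih2 => intro g hg; exact (ih1 hg).trans (ih2 hg)

theorem cob_mul {δ : Type*} (b : ZMod 2) (L : List δ) : ∀ (g : List δ → ZMod 2),
    cob (fun l => b * g l) L = b * cob g L := by
  induction L with
  | nil => intro g; simp [cob]
  | cons x l ih =>
    intro g
    rw [cob, cob, ih (fun l' => g (x :: l'))]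
    ring

theorem cob_add {δ : Type*} (L : List δ) : ∀ (g h : List δ → ZMod 2),
    cob (fun l => g l + h l) L = cob g L + cob h L := by
  induction L with
  | nil => intro g h; simp [cob]
  | cons x l ih =>
    intro g h
    rw [cob, cob, cob, ih (fun l' => g (x :: l')) (fun l' => h (x :: l'))]
    ring

theorem cob_zero {δ : Type*} (L : List δ) : ∀ (g : List δ → ZMod 2), (∀ l, g l = 0) →
    cob g L = 0 := by
  induction L with
  | nil => intro g _; rfl
  | cons x l ih =>
    intro g h
    rw [cob, h, ih _ (fun l => h _), add_zero]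

theorem cob_map {δ ε : Type*} (φ : δ → ε) (L : List δ) : ∀ (g : List ε → ZMod 2),
    cob g (L.map φ) = cob (fun l => g (l.map φ)) L := by
  induction L with
  | nil => intro g; rfl
  | cons x l ih =>
    intro g
    rw [List.map_cons, cob, cob, ih (fun l' => g (φ x :: l'))]
    rfl

theorem local_sorted (L : List Lbl) : L.Pairwise (fun x y => x.2 < y.2) → ∀ s : Bool,
    cob (altN s) L = altN true L + altN false L := by
  induction L with
  | nil => intro _ s; rw [altN_nil, altN_nil]; rfl
  | cons x l ih =>
    intro h s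
    rw [List.pairwise_cons] at h
    obtain ⟨h1, h2⟩ := h
    rw [cob, altN_cons_min h1, altN_cons_min h1]
    have e : cob (fun l' => altN s (x :: l')) l =
        cob (fun l' => (if x.1 = s then 1 else 0) * altN (!s) l') l := by
      refine cob_congr fun l' hl' => ?_
      rw [altN_cons_min (fun y hy => h1 y (hl'.mem hy))]
    rw [e, cob_mul, ih h2]
    have h2' : (2 : ZMod 2) = 0 := rfl
    cases hx : x.1 <;> cases s <;> simp
    · linear_combination (altN false l) * h2'
    · linear_combination (altN true l) * h2'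

/-- The local parity lemma. -/
theorem local_parity (L : List Lbl) (h : ∀ x ∈ L, ∀ y ∈ L, x.2 = y.2 → x.1 = y.1) :
    cob (altN true) L = altN true L + altN false L := by
  by_cases hnd : (L.map Prod.snd).Nodup
  · set L' := L.insertionSort (fun x y => x.2 ≤ y.2) with hL'
    have hp : L'.Perm L := List.perm_insertionSort _ L
    have hs : L'.Pairwise (fun x y => x.2 ≤ y.2) := by
      have : IsTotal Lbl (fun x y => x.2 ≤ y.2) := ⟨fun x y => le_total _ _⟩
      have : IsTrans Lbl (fun x y => x.2 ≤ y.2) := ⟨fun x y z h1 h2 => le_trans h1 h2⟩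
      exact List.pairwise_insertionSort (fun x y : Lbl => x.2 ≤ y.2) L
    have hnd' : (L'.map Prod.snd).Nodup := (hp.map Prod.snd).nodup_iff.2 hnd
    have hs' : L'.Pairwise (fun x y => x.2 < y.2) := by
      rw [List.Nodup, List.pairwise_map] at hnd'
      exact (hs.and hnd').imp (fun h => lt_of_le_of_ne h.1 h.2)
    rw [← cob_perm hp (fun l l' h => altN_perm h), ← altN_perm hp, ← altN_perm hp]
    exact local_sorted L' hs' true
  · -- a repeated label
    have hdup : ∃ x, ∃ l, L.Perm (x :: x :: l) := by
      have h1 : ¬ L.Nodup := by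
        intro hn
        exact hnd ((List.nodup_map_iff_inj_on hn).2 (fun x hx y hy hxy =>
          Prod.ext (h x hx y hy hxy) hxy))
      rw [List.nodup_iff_sublist] at h1
      push Not at h1
      obtain ⟨x, hx⟩ := h1
      obtain ⟨l, hl⟩ := hx.exists_perm_append
      exact ⟨x, l, hl⟩
    obtain ⟨x, l, hp⟩ := hdup
    have hf : ∀ s l', altN s (x :: x :: l') = 0 := by
      intro s l'
      refine altN_zero fun hc => ?_
      have := hc.nodup
      simp at this
    have h2' : (2 : ZMod 2) = 0 := rfl
    rw [cob_perm hp (fun l l' h => altN_perm h), altN_perm hp, altN_perm hp, hf, hf, cob,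
      cob, cob_zero l _ (fun l' => hf true l')]
    linear_combination (altN true (x :: l)) * h2'

end BorsukUlamAux
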